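import Pool.Agent.Helper8.TNG.Stmts

/-!
# Row MID of `MP_21b3ca_co`: the run with exactly one empty gap
-/

namespace Pool.Agent.Helper8.TNG

section MID

variable {α : Type} [DecidableEq α] {lt : α → α → Bool} {s t : α}

theorem MID_t2 (hP : Priv lt s t) (L l1 l2 : List α) (hL : del1 t L = l1 ++ s :: l2)
    (h1 : s ∉ l1) (hins : ∀ C : List α, ins lt C s = C ++ [s]) :
    del1 t (ins lt L t) = l1 ++ l2 ++ [s] := by
  induction L generalizing l1 with
  | nil => simp [del1] at hL
  | cons r L ih =>
    by_cases hr : r = t
    · subst hr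
      have e1 : del1 r (r :: L) = del1 r L := by simp [del1]
      rw [e1] at hL
      have e2 : ins lt (r :: L) r = r :: ins lt L r := by simp [ins, hP.top]
      rw [e2]
      have e3 : del1 r (r :: ins lt L r) = del1 r (ins lt L r) := by simp [del1]
      rw [e3]
      exact ih l1 hL h1
    · have e1 : del1 t (r :: L) = r :: del1 t L := by simp [del1, hr]
      rw [e1] at hL
      by_cases hs : r = s
      · subst hs
        cases l1 with
        | cons a l1 =>
          rw [List.cons_append, List.cons.injEq] at hL
          exact absurd (by rw [hL.1]; simp) h1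
        | nil =>
          rw [List.nil_append, List.cons.injEq] at hL
          have e2 : ins lt (r :: L) t = t :: ins lt L r := by
            have : lt r t = true := (hP.cov r).2 rfl
            simp [ins, this]
          rw [e2, hins L]
          have e3 : del1 t (t :: (L ++ [r])) = del1 t L ++ [r] := by
            simp [del1, hr]
          rw [e3, hL.2]
          simp
      · have hlt : lt r t = false := by
          by_contra hc
          rw [Bool.not_eq_false] at hc
          exact hs ((hP.cov r).1 hc)
        cases l1 with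
        | nil =>
          rw [List.nil_append, List.cons.injEq] at hL
          exact absurd hL.1 hs
        | cons a l1 =>
          rw [List.cons_append, List.cons.injEq] at hL
          have e2 : ins lt (r :: L) t = r :: ins lt L t := by
            simp [ins, hlt]
          rw [e2]
          have e3 : del1 t (r :: ins lt L t) = r :: del1 t (ins lt L t) := by
            simp [del1, hr]
          rw [e3, ih l1 hL.2 (fun hc => h1 (List.mem_cons_of_mem _ hc)), hL.1]
          simp

theorem MID_t0 (hP : Priv lt s t) (L : List α) (hL : s ∉ del1 t L)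
    (hins : ∀ (C : List α) (p : α), (∀ r ∈ C, lt r p = false) → ins lt C p = C ++ [p]) :
    del1 t (ins lt L t) = del1 t L := by
  have hs : s ∉ L := by
    intro hc
    apply hL
    simp [del1, hc, hP.ne]
  rw [hins L t]
  · simp [del1]
  · intro r hr
    by_contra hc
    rw [Bool.not_eq_false] at hc
    have := (hP.cov r).1 hc
    subst this
    exact hs hr

theorem MID_del_app (u v : List α) : del s t (u ++ v) = del s t u ++ del s t v := by
  simp [del]

theorem MID_del_s (v : List α) : del s t (s :: v) = del s t v := by
  simp [del]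

theorem MID_del_t (v : List α) : del s t (t :: v) = del s t v := by
  simp [del]

theorem MID_del_p (p : α) (v : List α) (h1 : p ≠ s) (h2 : p ≠ t) :
    del s t (p :: v) = p :: del s t v := by
  simp [del, h1, h2]

/-- Row MID. -/
theorem st_MID (h1 : ST_INS) (h2 : ST_FLT) (h3 : ST_NR) : ST_MID := by
  intro α _ lt s t hP w1 w3 p q hw1 hw3 hpt hqt hcnt
  obtain ⟨i1, i2, i3, i4, i5, i6, i7, i8⟩ := h1 α lt
  obtain ⟨f1, f2, f3⟩ := h2 α lt t hP.top
  have hinsS : ∀ C : List α, ins lt C s = C ++ [s] := fun C => (i5 C s (fun r _ => hP.bot r)).2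
  have hinsP : ∀ (C : List α) (p : α), (∀ r ∈ C, lt r p = false) → ins lt C p = C ++ [p] :=
    fun C p h => (i5 C p h).2
  -- counts
  have hc0 : w1.count s + ((if p = s then 1 else 0) + ((if q = s then 1 else 0) +
      w3.count s)) = 1 := by
    have e : (w1 ++ p :: q :: t :: w3).count s = w1.count s + ((if p = s then 1 else 0) +
        ((if q = s then 1 else 0) + w3.count s)) := by
      rw [List.count_append, List.count_cons, List.count_cons, List.count_cons]
      have : (t == s) = false := by simp [Ne.symm hP.ne]
      rw [this]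
      by_cases hp : p = s <;> by_cases hq : q = s <;> simp [hp, hq] <;> omega
    rw [← e]; exact hcnt
  have hmem : ∀ v : List α, s ∈ v ↔ 1 ≤ v.count s := fun v => by
    rw [← List.count_pos_iff]; rfl
  have hst1 : state lt (w1 ++ p :: q :: t :: w3) =
      run lt (ins lt (ins lt (ins lt (state lt w1) p) q) t) w3 := by
    unfold state
    rw [i4]
    rfl
  have hNR1 : del1 t (state lt w1) = state lt (del s t w1) ++ (if s ∈ w1 then [s] else []) := by
    have := h3 α lt s t hP [] [] w1 false (by simp [del1]) (by simp) (by simp)
      (by omega) hw1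
    simpa [state] using this
  have hdelw : del s t (w1 ++ p :: q :: t :: w3) =
      del s t w1 ++ (del s t [p] ++ (del s t [q] ++ del s t w3)) := by
    rw [show w1 ++ p :: q :: t :: w3 = w1 ++ ([p] ++ ([q] ++ t :: w3)) by simp]
    rw [MID_del_app, MID_del_app, MID_del_app, MID_del_t]
  obtain ⟨τ1, hτ1⟩ : ∃ τ1, τ1 = state lt (del s t w1) := ⟨_, rfl⟩
  rw [← hτ1] at hNR1 ⊢
  have hsdel : ∀ v : List α, s ∉ del s t v := by
    intro v
    simp [del]
  have hsτ : s ∉ τ1 := by
    have hp : τ1.Perm (del s t w1) := by
      rw [hτ1]; unfold state; simpa using i3 [] (del s t w1)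
    intro hc
    exact hsdel w1 (hp.mem_iff.1 hc)
  have hsins : ∀ (σ : List α) (p : α), s ∉ σ → p ≠ s → s ∉ ins lt σ p := by
    intro σ p h h' hc
    have := (i2 σ p).mem_iff.1 hc
    simp only [List.mem_cons] at this
    rcases this with h'' | h''
    · exact h' h''.symm
    · exact h h''
  have hf2 : ∀ (σ : List α) (p : α), p ≠ t → del1 t (ins lt σ p) = ins lt (del1 t σ) p := f2
  have hσ3 : del1 t (ins lt (ins lt (state lt w1) p) q) =
      ins lt (ins lt (del1 t (state lt w1)) p) q := by
    rw [hf2 _ _ hqt, hf2 _ _ hpt]
  -- the last part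
  have hfin : ∀ (T : List α) (h : Bool),
      del1 t (ins lt (ins lt (ins lt (state lt w1) p) q) t) =
        T ++ (if h = true then [s] else []) → s ∉ T → (h = true → s ∉ w3) →
      (h = true ∨ s ∈ w3) →
      del1 t (state lt (w1 ++ p :: q :: t :: w3)) = run lt T (del s t w3) ++ [s] := by
    intro T h e1 e2 e3 e4
    rw [hst1, h3 α lt s t hP _ T w3 h e1 e2 e3 (by omega) hw3, if_pos e4]
  -- the run without s and t
  have hrun : ∀ (v : List α), state lt (del s t w1 ++ v) = run lt τ1 v := by
    intro v
    rw [hτ1]
    unfold state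
    rw [i4]
  by_cases hs1 : s ∈ w1
  · -- s in w1
    have hc1 := (hmem w1).1 hs1
    have hps : p ≠ s := by
      intro hc; rw [if_pos hc] at hc0; omega
    have hqs : q ≠ s := by
      intro hc; rw [if_pos hc] at hc0; omega
    have hs3 : s ∉ w3 := by
      intro hc
      have := (hmem w3).1 hc
      omega
    have hdp : del s t [p] = [p] := by simp [del, hps, hpt]
    have hdq : del s t [q] = [q] := by simp [del, hqs, hqt]
    have hstd : state lt (del s t (w1 ++ p :: q :: t :: w3)) =
        run lt (ins lt (ins lt τ1 p) q) (del s t w3) := by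
      rw [hdelw, hdp, hdq, hrun]
      rfl
    rw [if_pos hs1] at hNR1
    obtain ⟨r, hr⟩ : ∃ r, r = outc lt τ1 p := ⟨_, rfl⟩
    obtain ⟨T, hT⟩ : ∃ T, T = upd lt τ1 p := ⟨_, rfl⟩
    obtain ⟨r2, hr2⟩ : ∃ r2, r2 = outc lt T q := ⟨_, rfl⟩
    obtain ⟨T2, hT2⟩ : ∃ T2, T2 = upd lt T q := ⟨_, rfl⟩
    rw [← hr, ← hT, ← hr2, ← hT2]
    have hinsp : ins lt τ1 p = T ++ [r] := by rw [i1, hT, hr]
    have hinsT : ins lt T q = T2 ++ [r2] := by rw [i1, hT2, hr2]
    have hsTr : s ∉ T ++ [r] := by
      rw [← hinsp]; exact hsins τ1 p hsτ hps
    have hsT : s ∉ T := fun hc => hsTr (by simp [hc])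
    have hsT2r : s ∉ T2 ++ [r2] := by
      rw [← hinsT]; exact hsins T q hsT hqs
    have hsT2 : s ∉ T2 := fun hc => hsT2r (by simp [hc])
    have hsr : s ≠ r := fun hc => hsTr (by simp [hc])
    have hsr2 : s ≠ r2 := fun hc => hsT2r (by simp [hc])
    have hinspq : ins lt (T ++ [r]) q = T2 ++ ins lt [r] r2 := by
      rw [i8, hT2, hr2]
    have hins1 : ins lt (τ1 ++ [s]) p = T ++ ins lt [s] r := by
      rw [i8, hT, hr]
    have hsins2 : s ∉ ins lt (T ++ [r]) q := hsins _ _ hsTr hqs
    cases hB : lt s r with
    | true =>
      -- carried below s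
      refine ⟨?_, by intro _ hc; cases hc⟩
      intro _
      have e1 : ins lt (τ1 ++ [s]) p = ins lt τ1 p ++ [s] := by
        rw [hins1, hinsp]; simp [ins, hB]
      rw [hstd]
      refine hfin (ins lt (ins lt τ1 p) q) true ?_ ?_ (fun _ => hs3) (Or.inl rfl)
      · rw [if_pos rfl]
        have e2 : del1 t (ins lt (ins lt (state lt w1) p) q) =
            upd lt (ins lt τ1 p) q ++ ins lt [s] (outc lt (ins lt τ1 p) q) := by
          rw [hσ3, hNR1, e1, i8]
        have hsi : s ∉ ins lt (ins lt τ1 p) q := by rw [hinsp]; exact hsins2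
        have e4 : ins lt (ins lt τ1 p) q = upd lt (ins lt τ1 p) q ++
            [outc lt (ins lt τ1 p) q] := i1 _ _
        have hsu : s ∉ upd lt (ins lt τ1 p) q := by
          intro hc
          apply hsi
          rw [e4]
          simp [hc]
        cases hD : lt s (outc lt (ins lt τ1 p) q) with
        | true =>
          have e3 : ins lt [s] (outc lt (ins lt τ1 p) q) =
              [outc lt (ins lt τ1 p) q, s] := by simp [ins, hD]
          rw [e3] at e2
          have e5 := MID_t2 hP (ins lt (ins lt (state lt w1) p) q)
            (ins lt (ins lt τ1 p) q) [] (by rw [e2, e4]; simp) hsi hinsS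
          rw [e5]
          simp
        | false =>
          have e3 : ins lt [s] (outc lt (ins lt τ1 p) q) =
              [s, outc lt (ins lt τ1 p) q] := by simp [ins, hD]
          rw [e3] at e2
          have e5 := MID_t2 hP (ins lt (ins lt (state lt w1) p) q)
            (upd lt (ins lt τ1 p) q) [outc lt (ins lt τ1 p) q] (by rw [e2]) hsu hinsS
          rw [e5, ← e4]
      · rw [hinsp]; exact hsins2
    | false =>
      have e1 : ins lt (τ1 ++ [s]) p = T ++ [s, r] := by
        rw [hins1]; simp [ins, hB]
      have e2 : del1 t (ins lt (ins lt (state lt w1) p) q) = T2 ++ ins lt [s, r] r2 := by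
        rw [hσ3, hNR1, e1, i8, hT2, hr2]
      cases hC : lt s r2 with
      | false =>
        refine ⟨?_, by intro _ _ hc; cases hc⟩
        intro _
        rw [hstd]
        refine hfin (ins lt (ins lt τ1 p) q) true ?_ ?_ (fun _ => hs3) (Or.inl rfl)
        · have e3 : ins lt [s, r] r2 = s :: ins lt [r] r2 := by simp [ins, hC]
          rw [e3] at e2
          rw [MID_t2 hP _ _ _ e2 hsT2 hinsS, hinsp, hinspq]
          simp
        · rw [hinsp]; exact hsins2
      | true =>
        have e3 : ins lt [s, r] r2 = [r2, r, s] := by
          have : lt r s = false := hP.bot r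
          simp [ins, hC, this]
        rw [e3] at e2
        have e4 : del1 t (ins lt (ins lt (ins lt (state lt w1) p) q) t) =
            T2 ++ [r2, r] ++ [s] := by
          have hs4 : s ∉ T2 ++ [r2, r] := by
            simp only [List.mem_append, List.mem_cons, List.not_mem_nil, or_false, not_or]
            exact ⟨hsT2, hsr2, hsr⟩
          have := MID_t2 hP (ins lt (ins lt (state lt w1) p) q) (T2 ++ [r2, r]) []
            (by rw [e2]; simp) hs4 hinsS
          rw [this]; simp
        have hs4 : s ∉ T2 ++ [r2, r] := by
          simp only [List.mem_append, List.mem_cons, List.not_mem_nil, or_false, not_or]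
          exact ⟨hsT2, hsr2, hsr⟩
        cases hD : lt r r2 with
        | true =>
          refine ⟨?_, by intro _ _ _ hc; cases hc⟩
          intro _
          rw [hstd]
          refine hfin (ins lt (ins lt τ1 p) q) true ?_ ?_ (fun _ => hs3) (Or.inl rfl)
          · rw [e4, hinsp, hinspq]
            simp [ins, hD]
          · rw [hinsp]; exact hsins2
        | false =>
          refine ⟨fun hc => absurd ⟨hs1, rfl, rfl, rfl⟩ hc, ?_⟩
          intro _ _ _ _
          refine ⟨?_, ?_⟩
          · exact hfin (T2 ++ [r2, r]) true (by rw [e4]; simp) hs4 (fun _ => hs3) (Or.inl rfl)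
          · rw [hstd, hinsp, hinspq]
            simp [ins, hD]
  · -- s not in w1
    refine ⟨?_, fun hc => absurd hc hs1⟩
    intro _
    rw [if_neg hs1, List.append_nil] at hNR1
    by_cases hps : p = s
    · have hqs : q ≠ s := by
        intro hc; rw [if_pos hc, if_pos hps] at hc0; omega
      have hs3 : s ∉ w3 := by
        intro hc
        have := (hmem w3).1 hc
        rw [if_pos hps] at hc0
        omega
      have hdp : del s t [p] = [] := by rw [hps]; simp [del]
      have hdq : del s t [q] = [q] := by simp [del, hqs, hqt]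
      have hstd : state lt (del s t (w1 ++ p :: q :: t :: w3)) =
          run lt (ins lt τ1 q) (del s t w3) := by
        rw [hdelw, hdp, hdq, hrun]
        rfl
      rw [hstd]
      have hsi := hsins _ _ hsτ hqs
      refine hfin (ins lt τ1 q) true ?_ hsi (fun _ => hs3) (Or.inl rfl)
      have e2 : del1 t (ins lt (ins lt (state lt w1) p) q) =
          upd lt τ1 q ++ ins lt [s] (outc lt τ1 q) := by
        rw [hσ3, hNR1, hps, hinsS, i8]
      have e4 : ins lt τ1 q = upd lt τ1 q ++ [outc lt τ1 q] := i1 _ _
      have hsu : s ∉ upd lt τ1 q := by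
        intro hc
        apply hsi
        rw [e4]
        simp [hc]
      rw [if_pos rfl]
      cases hD : lt s (outc lt τ1 q) with
      | true =>
        have e3 : ins lt [s] (outc lt τ1 q) = [outc lt τ1 q, s] := by simp [ins, hD]
        rw [e3] at e2
        have e5 := MID_t2 hP (ins lt (ins lt (state lt w1) p) q)
          (ins lt τ1 q) [] (by rw [e2, e4]; simp) hsi hinsS
        rw [e5]
        simp
      | false =>
        have e3 : ins lt [s] (outc lt τ1 q) = [s, outc lt τ1 q] := by simp [ins, hD]
        rw [e3] at e2
        rw [MID_t2 hP _ _ _ e2 hsu hinsS, ← e4]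
    · have hdp : del s t [p] = [p] := by simp [del, hps, hpt]
      by_cases hqs : q = s
      · have hs3 : s ∉ w3 := by
          intro hc
          have := (hmem w3).1 hc
          rw [if_pos hqs] at hc0
          omega
        have hdq : del s t [q] = [] := by rw [hqs]; simp [del]
        have hstd : state lt (del s t (w1 ++ p :: q :: t :: w3)) =
            run lt (ins lt τ1 p) (del s t w3) := by
          rw [hdelw, hdp, hdq, hrun]
          rfl
        rw [hstd]
        have hsi := hsins _ _ hsτ hps
        refine hfin (ins lt τ1 p) true ?_ hsi (fun _ => hs3) (Or.inl rfl)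
        have e2 : del1 t (ins lt (ins lt (state lt w1) p) q) = ins lt τ1 p ++ s :: [] := by
          rw [hσ3, hNR1, hqs, hinsS]
        rw [MID_t2 hP _ _ _ e2 hsi hinsS]
        simp
      · have hdq : del s t [q] = [q] := by simp [del, hqs, hqt]
        have hs3 : s ∈ w3 := by
          rw [hmem]
          rw [if_neg hps, if_neg hqs] at hc0
          have : w1.count s = 0 := by
            by_contra hc
            exact hs1 ((hmem w1).2 (by omega))
          omega
        have hstd : state lt (del s t (w1 ++ p :: q :: t :: w3)) =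
            run lt (ins lt (ins lt τ1 p) q) (del s t w3) := by
          rw [hdelw, hdp, hdq, hrun]
          rfl
        rw [hstd]
        have hsi := hsins _ _ (hsins _ _ hsτ hps) hqs
        refine hfin (ins lt (ins lt τ1 p) q) false ?_ hsi (by simp) (Or.inr hs3)
        have e2 : del1 t (ins lt (ins lt (state lt w1) p) q) = ins lt (ins lt τ1 p) q := by
          rw [hσ3, hNR1]
        rw [MID_t0 hP _ (by rw [e2]; exact hsi) hinsP, e2]
        simp

end MID

end Pool.Agent.Helper8.TNG
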