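import Pool.Agent.Helper8.TNG.Stmts

/-!
# Row PYE of `MP_21b3ca_co`: the main process, server `e`
-/

namespace Pool.Agent.Helper8.TNG

theorem PYE_filt (w : List Tok) (hy : Tok.y ∉ w) :
    del .x .f (del1 .g w) = w.filter core := by
  unfold del del1
  rw [List.filter_filter]
  apply List.filter_congr
  intro t ht
  have hty : t ≠ .y := fun hc => hy (hc ▸ ht)
  revert hty
  clear ht
  cases t <;> simp [core]

theorem PYE_priv : Priv tlt .x .f where
  ne := by decide
  top := by intro p; cases p <;> rfl
  bot := by intro p; cases p <;> rfl
  cov := by intro p; cases p <;> simp [tlt]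

theorem PYE_succ (h1 : ST_INS) (h2 : ST_TZE) (T rest : List Tok)
    (hT : ∀ t ∈ T, core t = true) (ho : Tok.o ∈ T) (hR : Rb BB T = false)
    (hrest : ∀ t ∈ rest, t = .x ∨ t = .a ∨ t = .b) :
    tlt .y (outc tlt (T ++ rest) .e) = true := by
  obtain ⟨i1, i2, i3, i4, i5, i6, i7, i8⟩ := h1 Tok tlt
  obtain ⟨t1, t2, t3, t4, t5⟩ := h2 T hT
  rw [i6, t4 ho hR, (i5 rest .b ?_).1]
  · rfl
  · intro r hr
    rcases hrest r hr with h | h | h <;> rw [h] <;> rfl

theorem PYE_rb_app (U V : List Tok) (h : Rb BB U = true) : Rb BB (U ++ V) = true := by
  unfold Rb at h ⊢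
  rw [decide_eq_true_eq] at h ⊢
  rw [List.find?_append, h]
  rfl

theorem PYE_ab (r : Tok) (hr : core r = true) (hx : tlt .x r = false) : r = .a ∨ r = .b := by
  revert hr hx
  cases r <;> simp [core, tlt]

theorem PYE_ocz (r : Tok) (hr : core r = true) (hx : tlt .x r = true) (he : r ≠ .e) :
    r = .o ∨ r = .c ∨ r = .z := by
  revert hr hx he
  cases r <;> simp [core, tlt]

/-- Row PYE. -/
theorem st_PYE (h1 : ST_INS) (h2 : ST_FLT) (h3 : ST_DEC) (h4 : ST_MID) (h5 : ST_LST)
    (h6 : ST_FV) (h7 : ST_FF) (h8 : ST_SWP) (h9 : ST_TZE) (h10 : ST_CIN) (h11 : ST_NR) :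
    ST_PYE := by
  intro w hy he hx ho hz hE hSR hco
  obtain ⟨i1, i2, i3, i4, i5, i6, i7, i8⟩ := h1 Tok tlt
  have hP := PYE_priv
  -- erase g
  obtain ⟨g1, g2, g3⟩ := h2 Tok tlt .g (by intro p; cases p <;> rfl)
  obtain ⟨f1, f2, f3⟩ := h2 Tok tlt .f hP.top
  have e1 : outc tlt (state tlt w) .e = outc tlt (del1 .f (state tlt (del1 .g w))) .e := by
    rw [g1 (state tlt w) .e, g3 w ?_]
    · exact f1 _ _
    · intro p hp
      have hpy : p ≠ .y := fun hc => hy (hc ▸ hp)
      revert hpy
      clear hp
      cases p <;> simp [tlt]
  rw [e1]
  clear e1 g1 g2 g3 f1 f2 f3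
  -- the core word
  have hfilt := PYE_filt w hy
  obtain ⟨w', hw'⟩ : ∃ w', w' = del1 Tok.g w := ⟨_, rfl⟩
  rw [← hw'] at hE hco hfilt ⊢
  have hcw' : ∀ t : Tok, t ≠ .g → w'.count t = w.count t := by
    intro t ht
    rw [hw']
    unfold del1
    rw [List.count_filter]
    simp [ht]
  have hx' : w'.count .x = 1 := by rw [hcw' _ (by decide), hx]
  have ho' : w'.count .o = 1 := by rw [hcw' _ (by decide), ho]
  have hz' : w'.count .z = 1 := by rw [hcw' _ (by decide), hz]
  have he' : Tok.e ∉ w' := by
    rw [hw']
    unfold del1
    intro hc
    exact he (List.mem_filter.1 hc).1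
  have hst : ∀ v : List Tok, (state tlt v).Perm v := by
    intro v
    unfold state
    simpa using i3 [] v
  unfold SR at hSR
  rw [← hfilt] at hSR
  have hcoreD : ∀ t ∈ del .x .f w', core t = true := by
    intro t ht
    rw [hfilt] at ht
    exact (List.mem_filter.1 ht).2
  obtain ⟨T, hT⟩ : ∃ T, T = state tlt (del .x .f w') := ⟨_, rfl⟩
  rw [← hT] at hSR
  have hTp : T.Perm (del .x .f w') := by rw [hT]; exact hst _
  have hTcore : ∀ t ∈ T, core t = true := fun t ht => hcoreD t (hTp.mem_iff.1 ht)
  have hcntD : ∀ (v : List Tok) (t : Tok), t ≠ .x → t ≠ .f → (del .x .f v).count t = v.count t := by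
    intro v t h h'
    unfold del
    rw [List.count_filter]
    simp [h, h']
  have hTo : T.count .o = 1 := by
    rw [hTp.count_eq, hcntD _ _ (by decide) (by decide), ho']
  have hTom : Tok.o ∈ T := by
    rw [← List.count_pos_iff, hTo]; exact Nat.one_pos
  have hSR' : Rb BB T = false := by
    rw [Bool.not_eq_true] at hSR
    exact hSR
  have hA : tlt .y (outc tlt (T ++ [Tok.x]) .e) = true :=
    PYE_succ h1 h9 T [.x] hTcore hTom hSR' (by simp)
  rcases h3 Tok .f w' hE with hd | ⟨w1, p, hd, hpf, hn1⟩ | ⟨w1, p, q, w3, hd, hpf, hqf, hn1, hn3⟩
  · -- (A)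
    have := h11 Tok tlt .x .f hP [] [] w' false (by simp [del1]) (by simp) (by simp)
      (by omega) hd
    have hxm : Tok.x ∈ w' := by
      rw [← List.count_pos_iff, hx']; exact Nat.one_pos
    have e2 : del1 Tok.f (state tlt w') = T ++ [Tok.x] := by
      rw [hT]
      simpa [state, hxm] using this
    rw [e2]
    exact hA
  · -- (B)
    have := h5 Tok tlt .x .f hP w1 p hn1 hpf (by rw [← hd]; exact hx')
    rw [← hd, ← hT] at this
    rcases this with h | ⟨hxw, hxr, hl, hTe⟩
    · rw [h]; exact hA
    · rw [hl]
      obtain ⟨U, hU⟩ : ∃ U, U = upd tlt (state tlt (del .x .f w1)) p := ⟨_, rfl⟩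
      obtain ⟨r, hr⟩ : ∃ r, r = outc tlt (state tlt (del .x .f w1)) p := ⟨_, rfl⟩
      rw [← hU, ← hr] at hTe ⊢
      rw [← hr] at hxr
      have hrc : core r = true := hTcore r (by rw [hTe]; simp)
      have hrab := PYE_ab r hrc hxr
      have hro : r ≠ .o := by rcases hrab with h | h <;> rw [h] <;> decide
      refine PYE_succ h1 h9 U [.x, r] (fun t ht => hTcore t (by rw [hTe]; simp [ht])) ?_ ?_ ?_
      · rw [hTe] at hTom
        simp only [List.mem_append, List.mem_cons, List.not_mem_nil, or_false] at hTom
        rcases hTom with h | h
        · exact h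
        · exact absurd h.symm hro
      · by_contra hc
        rw [Bool.not_eq_false] at hc
        have := PYE_rb_app U [r] hc
        rw [← hTe, hSR'] at this
        cases this
      · intro t ht
        simp only [List.mem_cons, List.not_mem_nil, or_false] at ht
        rcases ht with h | h
        · exact Or.inl h
        · rw [h]; exact Or.inr hrab
  · -- (C)
    obtain ⟨m1, m2⟩ := h4 Tok tlt .x .f hP w1 w3 p q hn1 hn3 hpf hqf (by rw [← hd]; exact hx')
    rw [← hd, ← hT] at m1 m2
    by_cases hex : Tok.x ∈ w1 ∧ tlt .x (outc tlt (state tlt (del .x .f w1)) p) = false ∧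
        tlt .x (outc tlt (upd tlt (state tlt (del .x .f w1)) p) q) = true ∧
        tlt (outc tlt (state tlt (del .x .f w1)) p)
          (outc tlt (upd tlt (state tlt (del .x .f w1)) p) q) = false
    · obtain ⟨hxw, hxr, hxr2, hrr⟩ := hex
      obtain ⟨hl, hTe⟩ := m2 hxw hxr hxr2 hrr
      clear m1 m2
      obtain ⟨τ1, hτ1⟩ : ∃ τ1, τ1 = state tlt (del .x .f w1) := ⟨_, rfl⟩
      rw [← hτ1] at hxr hxr2 hrr hl hTe
      obtain ⟨U, hU⟩ : ∃ U, U = upd tlt τ1 p := ⟨_, rfl⟩
      obtain ⟨r, hr⟩ : ∃ r, r = outc tlt τ1 p := ⟨_, rfl⟩
      rw [← hU, ← hr] at hrr hl hTe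
      rw [← hU] at hxr2
      rw [← hr] at hxr
      obtain ⟨X, hX⟩ : ∃ X, X = upd tlt U q := ⟨_, rfl⟩
      obtain ⟨r2, hr2⟩ : ∃ r2, r2 = outc tlt U q := ⟨_, rfl⟩
      obtain ⟨v3, hv3⟩ : ∃ v3, v3 = del Tok.x Tok.f w3 := ⟨_, rfl⟩
      rw [← hX, ← hr2, ← hv3] at hl hTe
      rw [← hr2] at hxr2 hrr
      obtain ⟨Tr, hTr⟩ : ∃ Tr, Tr = run tlt (X ++ [r2, r]) v3 := ⟨_, rfl⟩
      rw [← hTr] at hl
      rw [hl]
      -- permutations
      have hp1 : (U ++ [r]).Perm (p :: τ1) := by
        have := i2 τ1 p
        rw [i1, ← hU, ← hr] at this
        exact this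
      have hp2 : (X ++ [r2]).Perm (q :: U) := by
        have := i2 U q
        rw [i1, ← hX, ← hr2] at this
        exact this
      have hp3 : T.Perm (X ++ [r, r2] ++ v3) := by
        rw [hTe]; exact i3 _ _
      have hp4 : Tr.Perm (X ++ [r2, r] ++ v3) := by
        rw [hTr]; exact i3 _ _
      have hp5 : Tr.Perm T := by
        refine hp4.trans (List.Perm.trans ?_ hp3.symm)
        exact List.Perm.append_right _ (List.Perm.append_left _ (List.Perm.swap _ _ _))
      have hp6 : τ1.Perm (del .x .f w1) := by rw [hτ1]; exact hst _
      have hTrcore : ∀ t ∈ Tr, core t = true := fun t ht => hTcore t (hp5.mem_iff.1 ht)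
      have hTro : Tok.o ∈ Tr := hp5.mem_iff.2 hTom
      refine PYE_succ h1 h9 Tr [.x] hTrcore hTro ?_ (by simp)
      by_contra hRb
      rw [Bool.not_eq_false] at hRb
      -- the letters
      have hXT : ∀ t ∈ X, t ∈ T := fun t ht => hp3.mem_iff.2 (by simp [ht])
      have hrT : r ∈ T := hp3.mem_iff.2 (by simp)
      have hr2T : r2 ∈ T := hp3.mem_iff.2 (by simp)
      have hv3T : ∀ t ∈ v3, t ∈ T := fun t ht => hp3.mem_iff.2 (by simp [ht])
      have heT : Tok.e ∉ T := by
        intro hc
        have := hTp.mem_iff.1 hc
        exact he' (List.mem_filter.1 this).1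
      have hrab := PYE_ab r (hTcore r hrT) hxr
      have hrocz := PYE_ocz r2 (hTcore r2 hr2T) hxr2 (fun hc => heT (hc ▸ hr2T))
      have hro : r ≠ .o := by rcases hrab with h | h <;> rw [h] <;> decide
      have hcxw : w1.count .x + ((if p = .x then 1 else 0) + ((if q = .x then 1 else 0) +
          w3.count .x)) = 1 := by
        rw [hd] at hx'
        rw [List.count_append, List.count_cons, List.count_cons, List.count_cons] at hx'
        have e0 : (Tok.f == Tok.x) = false := by decide
        rw [e0] at hx'
        by_cases hp : p = .x <;> by_cases hq : q = .x <;> simp [hp, hq] at hx' ⊢ <;> omega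
      have hx1 : 1 ≤ w1.count .x := List.count_pos_iff.2 hxw
      have hpx : p ≠ .x := by
        intro hc; rw [if_pos hc] at hcxw; omega
      have hqx : q ≠ .x := by
        intro hc; rw [if_pos hc] at hcxw; omega
      have hdw : del .x .f w' = del .x .f w1 ++ (p :: q :: v3) := by
        rw [hd, hv3]
        unfold del
        rw [List.filter_append]
        simp [hpx, hqx, hpf, hqf]
      have hpc : core p = true := hcoreD p (by rw [hdw]; simp)
      have hqc : core q = true := hcoreD q (by rw [hdw]; simp)
      have hpe : p ≠ .e := by
        intro hc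
        exact he' (by rw [hd, hc]; simp)
      have hqe : q ≠ .e := by
        intro hc
        exact he' (by rw [hd, hc]; simp)
      have hτcore : ∀ t ∈ τ1, core t = true := by
        intro t ht
        have := hp6.mem_iff.1 ht
        exact hcoreD t (by rw [hdw]; simp [this])
      have hUcore : ∀ t ∈ U, core t = true := by
        intro t ht
        have : t ∈ p :: τ1 := hp1.mem_iff.1 (by simp [ht])
        rcases List.mem_cons.1 this with h | h
        · rw [h]; exact hpc
        · exact hτcore t h
      -- FV
      have hXo : X.count .o + ((if r2 = .o then 1 else 0) + v3.count .o) = 1 := by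
        have := hp3.count_eq Tok.o
        rw [hTo, List.count_append, List.count_append, List.count_cons, List.count_cons,
          List.count_nil] at this
        have e0 : (r == Tok.o) = false := by
          rw [beq_eq_false_iff_ne]; exact hro
        rw [e0] at this
        by_cases h : r2 = .o <;> simp [h] at this ⊢ <;> omega
      have hv3z : v3.count .z ≤ 1 := by
        have h := hp3.count_eq Tok.z
        rw [hTp.count_eq, hcntD _ _ (by decide) (by decide), hz', List.count_append] at h
        omega
      have hv3l : ∀ t ∈ v3, t = .o ∨ t = .a ∨ t = .b ∨ t = .c ∨ t = .z := by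
        intro t ht
        have h1 := hTcore t (hv3T t ht)
        have h2 : t ≠ .e := fun hc => heT (hc ▸ hv3T t ht)
        revert h1 h2
        clear ht
        cases t <;> simp [core]
      have hcoreX : ∀ t ∈ X ++ [r2, r], core t = true := by
        intro t ht
        apply hTcore
        simp only [List.mem_append, List.mem_cons, List.not_mem_nil, or_false] at ht
        rcases ht with h | h | h
        · exact hXT t h
        · rw [h]; exact hr2T
        · rw [h]; exact hrT
      have hcoreX' : ∀ t ∈ X ++ [r, r2], core t = true := by
        intro t ht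
        apply hcoreX
        simp only [List.mem_append, List.mem_cons, List.not_mem_nil, or_false] at ht ⊢
        tauto
      have hcntX : (X ++ [r2, r] ++ v3).count .o ≤ 1 := by
        rw [← hp4.count_eq, hp5.count_eq, hTo]
      have hcntX' : (X ++ [r, r2] ++ v3).count .o ≤ 1 := by
        rw [← hp3.count_eq, hTo]
      have hFr := h6 KK BB .z (Or.inr ⟨rfl, rfl, rfl⟩) (X ++ [r2, r]) v3 hcoreX hv3l hv3z hcntX
      have hFt := h6 KK BB .z (Or.inr ⟨rfl, rfl, rfl⟩) (X ++ [r, r2]) v3 hcoreX' hv3l hv3z hcntX'
      rw [← hTr, hRb] at hFr
      rw [← hTe, hSR'] at hFt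
      have hany : ∀ S : Tok → Bool, (X ++ [r2, r]).any S = (X ++ [r, r2]).any S := by
        intro S
        simp only [List.any_append, List.any_cons, List.any_nil, Bool.or_false]
        rw [Bool.or_comm (S r2) (S r)]
      rw [hany KK, hany BB] at hFr
      have hKo : KK .o = false := by decide
      have hBo : BB .o = false := by decide
      obtain ⟨sK1, sK2⟩ := h8 KK X r r2 hKo hro
      obtain ⟨sB1, sB2⟩ := h8 BB X r r2 hBo hro
      by_cases hr2o : r2 = .o
      · -- r2 = o
        rw [if_pos hr2o] at hXo
        have hoX : Tok.o ∉ X := by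
          intro hc
          have := List.count_pos_iff.2 hc
          omega
        have hov : Tok.o ∉ v3 := by
          intro hc
          have := List.count_pos_iff.2 hc
          omega
        obtain ⟨sK3, sK4⟩ := sK2 hr2o hoX
        obtain ⟨sB3, sB4⟩ := sB2 hr2o hoX
        obtain ⟨F1, F2, F3, F4⟩ := h7 KK BB .z (by decide) (by decide) v3 hov
        rw [sK3, sB3] at hFr
        rw [sK4, sB4] at hFt
        rcases hrab with hra | hrb
        · -- r = a
          have hKr : KK r = true := by rw [hra]; decide
          have hBr : BB r = false := by rw [hra]; decide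
          have hBr2 : BB r2 = false := by rw [hr2o]; decide
          rw [hKr, hBr] at hFt
          have e0 : (!(X.any KK) && !true) = false := by simp
          rw [e0, F1] at hFt
          have hb : (X ++ [r, r2]).any BB = X.any BB := by
            simp [List.any_append, hBr, hBr2]
          have hres := F2 _ _ _ _ (by rw [hb]; intro h; rw [h]; rfl) hFr.symm
          rw [hres] at hFt
          simp at hFt
        · -- r = b
          have hKr : KK r = false := by rw [hrb]; decide
          have hBr : BB r = true := by rw [hrb]; decide
          rw [hKr, hBr] at hFt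
          cases hXB : X.any BB with
          | true =>
            rw [hXB] at hFr hFt
            simp only [Bool.not_true, Bool.not_false, Bool.and_true, Bool.and_false] at hFr hFt
            rw [← hFr] at hFt
            cases hFt
          | false =>
            -- exactly one b among tau1, p, q
            have hbX : Tok.b ∉ X := by
              intro hc
              have : X.any BB = true := List.any_eq_true.2 ⟨.b, hc, by decide⟩
              rw [hXB] at this
              cases this
            have hbU : Tok.b ∉ U := by
              intro hc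
              have : Tok.b ∈ X ++ [r2] := hp2.mem_iff.2 (by simp [hc])
              simp only [List.mem_append, List.mem_cons, List.not_mem_nil, or_false] at this
              rcases this with h | h
              · exact hbX h
              · rw [hr2o] at h; cases h
            obtain ⟨c1, c2, c3, c4⟩ := h10 τ1 p hτcore hpc
            have hpb : p = .b := c2 hpe (by rw [← hr, hrb])
            have hbτ : Tok.b ∉ τ1 := by
              intro hc
              have e2 := hp1.count_eq Tok.b
              rw [List.count_append, hrb, hpb, List.count_cons_self] at e2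
              have e3 : U.count .b = 0 := List.count_eq_zero.2 hbU
              have e4 := List.count_pos_iff.2 hc
              rw [e3] at e2
              rw [List.count_nil, List.count_cons_self] at e2
              omega
            have hbw : Tok.b ∉ w1 := by
              intro hc
              apply hbτ
              rw [hp6.mem_iff]
              unfold del
              rw [List.mem_filter]
              exact ⟨hc, by decide⟩
            obtain ⟨d1, d2, d3, d4⟩ := h10 U q hUcore hqc
            have hqo : q = .o ∨ q = .z := by
              rcases d3 (by rw [← hr2, hr2o]) with h | h | h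
              · exact Or.inl h
              · exact absurd h hqe
              · exact Or.inr h
            rcases hqo with hqo | hqz
            · -- q = o
              by_cases hzac : ∃ t ∈ w1, t = Tok.z ∨ t = Tok.a ∨ t = Tok.c
              · apply hco
                exact ⟨w1, .f :: w3, Or.inl ⟨by rw [hd, hpb, hqo], hzac⟩, hxw, hbw⟩
              · have hXτ : ∀ t, t ∈ X → t ∈ τ1 := by
                  intro t ht
                  have hto : t ≠ .o := fun hc => hoX (hc ▸ ht)
                  have htb : t ≠ .b := fun hc => hbX (hc ▸ ht)
                  have : t ∈ q :: U := hp2.mem_iff.1 (by simp [ht])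
                  rcases List.mem_cons.1 this with h | h
                  · rw [hqo] at h; exact absurd h hto
                  · have : t ∈ p :: τ1 := hp1.mem_iff.1 (by simp [h])
                    rcases List.mem_cons.1 this with h | h
                    · rw [hpb] at h; exact absurd h htb
                    · exact h
                have hXK : X.any KK = false := by
                  by_contra hc
                  rw [Bool.not_eq_false, List.any_eq_true] at hc
                  obtain ⟨t, ht, hK⟩ := hc
                  apply hzac
                  refine ⟨t, ?_, ?_⟩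
                  · have := hp6.mem_iff.1 (hXτ t ht)
                    exact (List.mem_filter.1 this).1
                  · unfold KK at hK
                    rw [decide_eq_true_eq] at hK
                    exact Or.inr hK
                have hzv : Tok.z ∈ v3 := by
                  have hz1 : Tok.z ∉ w1 := fun hc => hzac ⟨.z, hc, Or.inl rfl⟩
                  have hzm : Tok.z ∈ del .x .f w' := by
                    rw [← List.count_pos_iff, hcntD _ _ (by decide) (by decide), hz']
                    exact Nat.one_pos
                  rw [hdw, hpb, hqo] at hzm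
                  simp only [List.mem_append, List.mem_cons] at hzm
                  rcases hzm with h | h | h | h
                  · exact absurd (List.mem_filter.1 h).1 hz1
                  · cases h
                  · cases h
                  · exact h
                have hb1 : (X ++ [r, r2]).any BB = true := by
                  simp [List.any_append, hBr]
                rw [hXK, hb1] at hFr
                have := F3 (!(X.any BB)) ((X ++ [r, r2]).any KK) hzv
                rw [show (!false) = true from rfl, this] at hFr
                cases hFr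
            · -- q = z
              apply hco
              refine ⟨w1, .f :: w3, Or.inr ⟨by rw [hd, hpb, hqz], ?_⟩, hxw, hbw⟩
              have h1 : Tok.o ∈ q :: U := hp2.mem_iff.1 (by rw [hr2o]; simp)
              rw [hqz] at h1
              rcases List.mem_cons.1 h1 with h | h
              · cases h
              · have h2 : Tok.o ∈ p :: τ1 := hp1.mem_iff.1 (by simp [h])
                rw [hpb] at h2
                rcases List.mem_cons.1 h2 with h | h
                · cases h
                · exact (List.mem_filter.1 (hp6.mem_iff.1 h)).1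
      · -- r2 ≠ o
        rw [sK1 hr2o, sB1 hr2o] at hFr
        rw [← hFr] at hFt
        cases hFt
    · rw [m1 hex]
      exact hA

end Pool.Agent.Helper8.TNG
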